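import Pool.Agent.Helper92.TN.GoalsH

/-!
# Project TN (MP_a41896_nt), SEL: automorphisms with linearly independent normal vectors
-/

set_option autoImplicit false

open MvPolynomial

namespace Pool.Agent.Helper81.TN.SEL

open WeierstrassCurve
open Pool.Agent.Helper29.BL Pool.Agent.Helper92.Ru Pool.Agent.Helper42.SG
open Pool.Agent.Helper60.T3 (WL IP zd)
open Pool.Agent.Helper92.TN

noncomputable section

theorem ps_sq {F : Type} [Field F] (W : Affine F) (P : W.Point) (hP : P ≠ 0) :
    ps P ^ 2 = Bf W (xc P) := by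
  cases P with
  | zero => exact absurd rfl hP
  | some x y h =>
    have h1 := h.1
    rw [Affine.equation_iff] at h1
    simp only [ps, xc, Bf, WeierstrassCurve.b₂, WeierstrassCurve.b₄, WeierstrassCurve.b₆]
    linear_combination 4 * h1

section

variable {K Ω : Type} [Field K] [Field Ω] [Algebra K Ω] [DecidableEq Ω]

theorem tp_ne_zero (τ : Ω ≃ₐ[K] Ω) {W : Affine K} {P : (WL Ω W).Point} (hP : P ≠ 0) :
    tp τ P ≠ 0 := by
  intro h
  exact hP (Affine.Point.map_injective (W' := W) τ.toAlgHom (h.trans (map_zero _).symm))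

theorem xc_tp (τ : Ω ≃ₐ[K] Ω) {W : Affine K} (P : (WL Ω W).Point) :
    xc (tp τ P) = τ (xc P) := by
  cases P with
  | zero => exact (map_zero τ).symm
  | some x y h => rfl

theorem aeval_tp {σ : Type} (τ : Ω ≃ₐ[K] Ω) {W : σ → Affine K} (x : ∀ i, (WL Ω (W i)).Point)
    (g : MvPolynomial σ K) :
    aeval (fun i => xc (tp τ (x i))) g = τ (aeval (fun i => xc (x i)) g) := by
  have h1 : (fun i => xc (tp τ (x i))) = fun i => τ.toAlgHom (xc (x i)) := by
    funext i
    exact xc_tp τ (x i)
  rw [h1]
  exact (MvPolynomial.comp_aeval_apply (fun i => xc (x i)) τ.toAlgHom g).symm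

end

theorem isAlgClosed_acl (K : Type) [Field K] {Ω : Type} [Field Ω] [Algebra K Ω] [IsAlgClosed Ω]
    (S : Set Ω) : IsAlgClosed (acl K S) := by
  have h : IsAlgClosure (IntermediateField.adjoin K S)
      (algebraicClosure (IntermediateField.adjoin K S) Ω) := inferInstance
  exact h.isAlgClosed

/-- A functional as a sum. -/
theorem fun_eq {Ω σ : Type} [Field Ω] [Fintype σ] [DecidableEq σ] (f : (σ → Ω) →ₗ[Ω] Ω)
    (w : σ → Ω) : ∑ b, f (fun j => if b = j then 1 else 0) * w b = f w := by
  rw [LinearMap.pi_apply_eq_sum_univ f w]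
  refine Finset.sum_congr rfl fun b _ => ?_
  rw [smul_eq_mul, mul_comm]

/-- **SEL**. -/
theorem t (hTCH : TCH) (hTAUT : TAUT) (hACLP : ACLP) : SEL := by
  intro D0 n
  obtain ⟨B0, hB⟩ := hTCH D0 n
  refine ⟨B0, ?_⟩
  intro K _ _ σ _ _ W a g hcard hell hdeg hNF Ω _ _ _ _ x e SL hx0 hg hind halg he
  have : CharZero Ω := charZero_of_injective_algebraMap (algebraMap K Ω).injective
  have hP : ∀ (i : σ) (P : (WL Ω (W i)).Point) (m : ℕ), (2 ^ m) • P = 0 →
      IP (acl K SL : Set Ω) P := by
    intro i P m h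
    have := hell i
    exact (hACLP K Ω (W i) SL P 0 m).2.1 (Or.inl h)
  have h2x : ∀ c, c ≠ a → 2 • ((2 ^ e) • x c) ≠ 0 := by
    intro c hc h
    have h1 : (2 ^ (e + 1)) • x c = 0 := by
      rw [pow_succ', mul_smul]
      exact h
    rcases hP c (x c) (e + 1) h1 with h2 | h2
    · exact hx0 c h2
    · exact hind.transcendental ⟨c, hc⟩
        (isAlgebraic_algebraMap (⟨xc (x c), h2.1⟩ : acl K SL))
  have hac := isAlgClosed_acl K SL
  have hn0 : nv W g x ≠ 0 := by
    intro h
    have h1 := hNF (acl K SL) Ω (fun i => xc (x i)) (fun i => ps (x i))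
      (fun i => ps_sq _ _ (hx0 i)) hg hind (fun _ => 1) ?_
    · exact one_ne_zero (congrFun h1 a)
    · refine Finset.sum_eq_zero fun b _ => ?_
      rw [map_one, one_mul]
      exact congrFun h b
  have hmain : ∀ r ≤ n, ∃ (τ : Fin r → (Ω ≃ₐ[K] Ω)) (t : Fin r → ∀ i, (WL Ω (W i)).Point),
      (∀ i, ∀ z ∈ acl K SL, τ i z = z) ∧ (∀ i c, c ≠ a → (2 ^ e) • t i c = 0) ∧
      (∀ i c, c ≠ a → tp (τ i) (x c) = x c + t i c) ∧
      LinearIndependent Ω (Fin.cons (nv W g x) (fun i => nv W g (fun b => tp (τ i) (x b))) :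
        Fin (r + 1) → (σ → Ω)) := by
    intro r
    induction r with
    | zero =>
      intro _
      refine ⟨fun i => i.elim0, fun i => i.elim0, fun i => i.elim0, fun i => i.elim0,
        fun i => i.elim0, ?_⟩
      rw [linearIndependent_finCons]
      refine ⟨linearIndependent_empty_type, ?_⟩
      rw [Set.range_eq_empty, Submodule.span_empty, Submodule.mem_bot]
      exact hn0
    | succ r ih =>
      intro hr
      obtain ⟨τ, t, h1, h2, h3, h4⟩ := ih (by omega)
      have hlt : Submodule.span Ω (Set.range (Fin.cons (nv W g x)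
          (fun i => nv W g (fun b => tp (τ i) (x b))) : Fin (r + 1) → (σ → Ω))) < ⊤ := by
        refine lt_top_iff_ne_top.2 fun htop => ?_
        have h5 := finrank_range_le_card (R := Ω) (Fin.cons (nv W g x)
          (fun i => nv W g (fun b => tp (τ i) (x b))) : Fin (r + 1) → (σ → Ω))
        rw [Set.finrank, htop, finrank_top, Module.finrank_fintype_fun_eq_card, hcard,
          Fintype.card_fin] at h5
        omega
      obtain ⟨f, hf, hker⟩ := Submodule.exists_le_ker_of_lt_top _ hlt
      have hlam : (fun b : σ => f (fun j => if b = j then 1 else 0)) ≠ 0 := by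
        intro h
        refine hf (LinearMap.ext fun w => ?_)
        rw [← fun_eq f w]
        refine Finset.sum_eq_zero fun b _ => ?_
        have := congrFun h b
        simp only [Pi.zero_apply] at this
        rw [this, zero_mul]
      obtain ⟨t', ht', hy'⟩ := hB K σ W a g hcard hell hdeg hNF Ω x e h2x he _ hlam
      obtain ⟨τ', hτ1, hτ2⟩ := hTAUT K Ω σ W hell a (acl K SL) x t' hind halg
        fun c hc => hP c (t' c) e (ht' c hc).1
      have h6 := hy' (fun b => tp τ' (x b)) (fun i => tp_ne_zero τ' (hx0 i)) hτ2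
        (by rw [aeval_tp, hg, map_zero])
      have hnot : nv W g (fun b => tp τ' (x b)) ∉ Submodule.span Ω (Set.range
          (Fin.cons (nv W g x) (fun i => nv W g (fun b => tp (τ i) (x b))) :
            Fin (r + 1) → (σ → Ω))) := by
        intro hmem
        refine h6 ?_
        rw [fun_eq f]
        exact hker hmem
      refine ⟨Fin.snoc (α := fun _ => (Ω ≃ₐ[K] Ω)) τ τ',
        Fin.snoc (α := fun _ => ∀ i, (WL Ω (W i)).Point) t t', fun i => ?_, fun i => ?_,
        fun i => ?_, ?_⟩
      · refine Fin.lastCases ?_ (fun j => ?_) i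
        · rw [Fin.snoc_last]
          exact hτ1
        · rw [Fin.snoc_castSucc]
          exact h1 j
      · refine Fin.lastCases ?_ (fun j => ?_) i
        · rw [Fin.snoc_last]
          exact fun c hc => (ht' c hc).1
        · rw [Fin.snoc_castSucc]
          exact h2 j
      · refine Fin.lastCases ?_ (fun j => ?_) i
        · rw [Fin.snoc_last, Fin.snoc_last]
          exact hτ2
        · rw [Fin.snoc_castSucc, Fin.snoc_castSucc]
          exact h3 j
      · have h7 : (fun i => nv W g (fun b => tp (Fin.snoc (α := fun _ => (Ω ≃ₐ[K] Ω)) τ τ' i)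
            (x b))) = Fin.snoc (α := fun _ => σ → Ω) (fun i => nv W g (fun b => tp (τ i) (x b)))
              (nv W g fun b => tp τ' (x b)) := by
          funext i
          refine Fin.lastCases ?_ (fun j => ?_) i
          · rw [Fin.snoc_last, Fin.snoc_last]
          · rw [Fin.snoc_castSucc, Fin.snoc_castSucc]
        rw [h7, Fin.cons_snoc_eq_snoc_cons]
        exact linearIndependent_finSnoc.2 ⟨h4, hnot⟩
  obtain ⟨τ, t, h1, h2, h3, h4⟩ := hmain n le_rfl
  refine ⟨τ, t, h1, h2, h3, ?_⟩
  rw [← linearIndependent_equiv (finSuccEquiv n)]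
  have h5 : ((fun o : Option (Fin n) => o.elim (nv W g x)
      (fun i => nv W g (fun b => tp (τ i) (x b)))) ∘ (finSuccEquiv n)) =
      (Fin.cons (nv W g x) (fun i => nv W g (fun b => tp (τ i) (x b))) :
        Fin (n + 1) → (σ → Ω)) := by
    funext i
    refine Fin.cases ?_ (fun j => ?_) i
    · simp
    · simp
  rw [h5]
  exact h4

end

end Pool.Agent.Helper81.TN.SEL
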